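import Pool.Agent.Lib.MP_361a6f_ag.FL.LT.Defs
import Pool.Agent.Lib.MP_361a6f_ag.FL.E.E1Q
import Pool.Agent.Lib.MP_361a6f_ag.FL.E.G4b

/-!
# Theorem LT, row T1: the situation at every level exists

As `E/E1Q.lean`, but the unitary matrix `F` need not be diagonal: the stabiliser of the base tuple
commutes with all parity preserving matrices that commute with `F`.
-/

set_option autoImplicit false
set_option linter.unusedSectionVars false

open Filter Topology MeasureTheory

namespace Pool.Agent.Lib.MP_361a6f_ag.FL.LT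

open Pool.Agent.Lib.MP_361a6f_ag.FL.E (RSys opM StabU stab)

namespace T1

open TMIN

variable {I Λ ι : Type} [Fintype I] [DecidableEq I] [DecidableEq Λ] [Fintype ι] {len : ι → ℕ}
  {D : Dat I Λ}

/-! ### Parity -/

theorem par_of_typ {A : Matrix I I ℂ} (h : ∀ i j, D.typ i ≠ D.typ j → A i j = 0) : Par D A := by
  intro i j hij
  refine h i j fun e => hij ?_
  unfold podd
  rw [e]

/-- the parity preserving part of a matrix -/
noncomputable def pp (D : Dat I Λ) (M : Matrix I I ℂ) : Matrix I I ℂ :=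
  open Classical in Matrix.of fun i j => if (podd D i ↔ podd D j) then M i j else 0

theorem pp_pos (M : Matrix I I ℂ) {i j : I} (h : podd D i ↔ podd D j) : pp D M i j = M i j := by
  unfold pp
  rw [Matrix.of_apply, if_pos h]

theorem pp_neg (M : Matrix I I ℂ) {i j : I} (h : ¬(podd D i ↔ podd D j)) : pp D M i j = 0 := by
  unfold pp
  rw [Matrix.of_apply, if_neg h]

theorem pp_par (M : Matrix I I ℂ) : Par D (pp D M) := fun _ _ h => pp_neg M h

theorem pp_mul_right (M : Matrix I I ℂ) {F : Matrix I I ℂ} (hF : Par D F) :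
    pp D (M * F) = pp D M * F := by
  classical
  ext i j
  by_cases h : podd D i ↔ podd D j
  · rw [pp_pos _ h, Matrix.mul_apply, Matrix.mul_apply]
    refine Finset.sum_congr rfl fun c _ => ?_
    by_cases hc : podd D i ↔ podd D c
    · rw [pp_pos _ hc]
    · rw [hF c j (fun hcj => hc (h.trans hcj.symm)), mul_zero, mul_zero]
  · rw [pp_neg _ h, Matrix.mul_apply]
    refine (Finset.sum_eq_zero fun c _ => ?_).symm
    by_cases hc : podd D i ↔ podd D c
    · rw [hF c j (fun hcj => h (hc.trans hcj)), mul_zero]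
    · rw [pp_neg _ hc, zero_mul]

theorem pp_mul_left (M : Matrix I I ℂ) {F : Matrix I I ℂ} (hF : Par D F) :
    pp D (F * M) = F * pp D M := by
  classical
  ext i j
  by_cases h : podd D i ↔ podd D j
  · rw [pp_pos _ h, Matrix.mul_apply, Matrix.mul_apply]
    refine Finset.sum_congr rfl fun c _ => ?_
    by_cases hc : podd D c ↔ podd D j
    · rw [pp_pos _ hc]
    · rw [hF i c (fun hci => hc (hci.symm.trans h)), zero_mul, zero_mul]
  · rw [pp_neg _ h, Matrix.mul_apply]
    refine (Finset.sum_eq_zero fun c _ => ?_).symm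
    by_cases hc : podd D c ↔ podd D j
    · rw [hF i c (fun hci => h (hci.trans hc)), zero_mul]
    · rw [pp_neg _ hc, mul_zero]

/-- the trace against a parity preserving matrix sees the parity preserving part only -/
theorem trace_pp {A : Matrix I I ℂ} (hA : Par D A) (M : Matrix I I ℂ) :
    (A * M).trace = (A * pp D M).trace := by
  classical
  unfold Matrix.trace
  refine Finset.sum_congr rfl fun i _ => ?_
  rw [Matrix.diag_apply, Matrix.diag_apply, Matrix.mul_apply, Matrix.mul_apply]
  refine Finset.sum_congr rfl fun j _ => ?_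
  by_cases h : podd D j ↔ podd D i
  · rw [pp_pos _ h]
  · rw [hA i j fun e => h e.symm, zero_mul, zero_mul]

theorem par_mul {A B : Matrix I I ℂ} (hA : Par D A) (hB : Par D B) : Par D (A * B) := by
  classical
  intro i j h
  rw [Matrix.mul_apply]
  refine Finset.sum_eq_zero fun c _ => ?_
  by_cases hc : podd D i ↔ podd D c
  · rw [hB c j fun e => h (hc.trans e), mul_zero]
  · rw [hA i c hc, zero_mul]

/-! ### The moment as a matrix -/

/-- the moment as a matrix -/
noncomputable def mm (h : Alg1) (s : Tup I len) : Matrix I I ℂ :=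
  Matrix.of fun i j => mo h s (Matrix.single j i 1)

theorem mo_eq (h : Alg1) (s : Tup I len) (A : Matrix I I ℂ) : mo h s A = (A * mm h s).trace := by
  conv_lhs => rw [Matrix.matrix_eq_sum_single A]
  rw [map_sum]
  unfold Matrix.trace
  refine Finset.sum_congr rfl fun i _ => ?_
  rw [map_sum, Matrix.diag_apply, Matrix.mul_apply]
  refine Finset.sum_congr rfl fun j _ => ?_
  unfold mm
  rw [Matrix.of_apply, ← smul_eq_mul, ← map_smul, Matrix.smul_single, smul_eq_mul, mul_one]

/-- the moment commutes with the unitary symmetries of the tuple -/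
theorem mm_comm (h : Alg1) {g : Matrix I I ℂ} (hu : g.conjTranspose * g = 1) {s : Tup I len}
    (hs : gS g s = s) : mm h s * g = g * mm h s := by
  have hinv : g⁻¹ = g.conjTranspose := Matrix.inv_eq_left_inv hu
  have h1 : g⁻¹ * g = 1 := by rw [hinv, hu]
  have h2 : g * g⁻¹ = 1 := mul_eq_one_comm.1 h1
  have h3 : g⁻¹ * mm h s * g = mm h s := by
    rw [Matrix.ext_iff_trace_mul_left]
    intro A
    have h4 := mo_conj h hu hs A
    rw [mo_eq, mo_eq] at h4
    rw [← h4]
    calc (A * (g⁻¹ * mm h s * g)).trace = ((A * g⁻¹ * mm h s) * g).trace := by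
          simp only [Matrix.mul_assoc]
      _ = (g * (A * g⁻¹ * mm h s)).trace := Matrix.trace_mul_comm _ _
      _ = (g * A * g⁻¹ * mm h s).trace := by simp only [Matrix.mul_assoc]
  calc mm h s * g = g * g⁻¹ * mm h s * g := by rw [h2, Matrix.one_mul]
    _ = g * (g⁻¹ * mm h s * g) := by simp only [Matrix.mul_assoc]
    _ = g * mm h s := by rw [h3]

/-- **Minimality.** -/
theorem mat_min (h : Alg1) {F : Matrix I I ℂ} (hF : IsK D F) {s : Tup I len} (hs : gS F s = s)
    {k : Matrix I I ℂ} (hk : IsK D k) (hkc : ∀ M, Par D M → M * F = F * M → k * M = M * k)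
    (hks : gS k s = jS D s) : Minimal D s := by
  intro A hA
  change mo h s A = 0
  have hAp : Par D A := par_of_typ hA.1
  obtain ⟨hki, hkk, hkk'⟩ := h.G_inv D k hk.1
  have hkp : Par D k := par_of_typ hk.1.1
  have hkip : Par D k⁻¹ := par_of_typ hki.1
  -- `k` commutes with the parity preserving part of the moment
  have hm : pp D (mm h s) * F = F * pp D (mm h s) := by
    rw [← pp_mul_right _ (par_of_typ hF.1.1), ← pp_mul_left _ (par_of_typ hF.1.1),
      mm_comm h hF.2 hs]
  have hkm : k * pp D (mm h s) = pp D (mm h s) * k := hkc _ (pp_par _) hm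
  have h1 : mo h s (k⁻¹ * A * k) = mo h s A := by
    rw [mo_eq, mo_eq, trace_pp (par_mul (par_mul hkip hAp) hkp), trace_pp hAp]
    calc (k⁻¹ * A * k * pp D (mm h s)).trace = (k⁻¹ * (A * (k * pp D (mm h s)))).trace := by
          simp only [Matrix.mul_assoc]
      _ = (k⁻¹ * (A * (pp D (mm h s) * k))).trace := by rw [hkm]
      _ = ((A * (pp D (mm h s) * k)) * k⁻¹).trace := Matrix.trace_mul_comm _ _
      _ = (A * pp D (mm h s) * (k * k⁻¹)).trace := by simp only [Matrix.mul_assoc]
      _ = (A * pp D (mm h s)).trace := by rw [hkk, Matrix.mul_one]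
  have h2 := E.Blk.mo_gS h hk.2 s (k⁻¹ * A * k)
  have h3 : k * (k⁻¹ * A * k) * k⁻¹ = A := by
    calc k * (k⁻¹ * A * k) * k⁻¹ = (k * k⁻¹) * A * (k * k⁻¹) := by
          simp only [Matrix.mul_assoc]
      _ = A := by rw [hkk, Matrix.one_mul, Matrix.mul_one]
  rw [h3, hks, E.Blk.mo_jS h s hA, h1] at h2
  have h4 : (2 : ℂ) * mo h s A = 0 := by linear_combination -h2
  rcases mul_eq_zero.1 h4 with h5 | h5
  · exact absurd h5 two_ne_zero
  · exact h5

/-! ### Members of length one and two -/

theorem jj_apply {L : ℕ} (u : Ten I L) (w : Fin L → I) :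
    jT D (jT D u) w = sg D (D.τ ∘ w) * sg D w * u w := by
  have h1 : D.τ ∘ (D.τ ∘ w) = w := by
    funext i
    exact D.τ_τ _
  have h2 : (starRingEnd ℂ) (sg D w) = sg D w := by
    unfold sg
    rw [map_prod]
    exact Finset.prod_congr rfl fun i _ => E.E1P.s_conj _
  unfold jT
  rw [h1, map_mul, h2, Complex.conj_conj]
  ring

theorem ss_one {i : I} (h : D.s (D.τ i) * D.s i = 1) : ¬podd D i := by
  intro ho
  have h1 := (D.odd_τ i ho).2
  have h2 := E.E1P.s_sq (D := D) i
  rw [h1] at h
  have h3 : (2 : ℂ) = 0 := by linear_combination -h2 - h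
  exact two_ne_zero h3

theorem ev_of {v : I → ℂ} (h : jT D (jT D (tv v)) = tv v) : v ∈ Ev D := by
  intro i hi
  by_contra h0
  apply hi
  have h1 := congrFun h ![i]
  rw [jj_apply] at h1
  have h2 : tv v ![i] = v i := rfl
  rw [h2] at h1
  have h3 : sg D (D.τ ∘ ![i]) * sg D ![i] = 1 := mul_right_cancel₀ h0 (by rw [h1, one_mul])
  refine ss_one ?_
  unfold sg at h3
  rw [Fin.prod_univ_one, Fin.prod_univ_one] at h3
  exact h3

theorem ss_even {i : I} (h : ¬podd D i) : D.s (D.τ i) * D.s i = 1 := by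
  obtain ⟨h1, h2⟩ := D.even_τ i h
  rw [h1, h2, one_mul]

theorem ss_odd {i : I} (h : podd D i) : D.s (D.τ i) * D.s i = -1 := by
  have h1 := (D.odd_τ i h).2
  have h2 := E.E1P.s_sq (D := D) i
  rw [h1]
  linear_combination -h2

theorem podd_tau (i : I) : podd D (D.τ i) ↔ podd D i := by
  unfold podd
  rw [D.typ_τ]

theorem par_two {z : Ten I 2} (h : jT D (jT D z) = z) : Par D (opM D z) := by
  intro i j hij
  by_contra h0
  have h00 : z ![i, D.τ j] ≠ 0 := fun e => h0 (by unfold opM; rw [e, zero_mul])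
  have h1 := congrFun h ![i, D.τ j]
  rw [jj_apply] at h1
  have h3 : sg D (D.τ ∘ ![i, D.τ j]) * sg D ![i, D.τ j] = 1 :=
    mul_right_cancel₀ h00 (by rw [h1, one_mul])
  unfold sg at h3
  rw [Fin.prod_univ_two, Fin.prod_univ_two] at h3
  have h4 : (D.s (D.τ i) * D.s i) * (D.s (D.τ (D.τ j)) * D.s (D.τ j)) = 1 := by
    rw [← h3]
    change _ = D.s (D.τ i) * D.s (D.τ (D.τ j)) * (D.s i * D.s (D.τ j))
    ring
  by_cases hi : podd D i
  · have hj : ¬podd D (D.τ j) := fun e => hij ⟨fun _ => (podd_tau j).1 e, fun _ => hi⟩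
    rw [ss_odd hi, ss_even hj] at h4
    norm_num at h4
  · have hj : podd D (D.τ j) := by
      by_contra e
      exact hij ⟨fun e' => absurd e' hi, fun e' => absurd ((podd_tau j).2 e') e⟩
    rw [ss_even hi, ss_odd hj] at h4
    norm_num at h4

theorem gT_tv (x : Matrix I I ℂ) (v : I → ℂ) : gT x (tv v) = tv (x.mulVec v) := by
  funext w
  unfold gT tv Matrix.mulVec dotProduct
  refine Fintype.sum_equiv (Equiv.funUnique (Fin 1) I) _ _ fun w' => ?_
  rw [Fin.prod_univ_one]
  rfl

theorem tv_inj {v w : I → ℂ} (h : tv v = tv w) : v = w := by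
  funext i
  exact congrFun h ![i]

open scoped ComplexOrder in
/-- a matrix that commutes with the commutant of `F` and fixes one invariant even vector fixes all
of them -/
theorem comm_one {F : Matrix I I ℂ} (hF : F.conjTranspose * F = 1) {o v : I → ℂ} (ho0 : o ≠ 0)
    (hFo : F.mulVec o = o) (hFv : F.mulVec v = v) (ho : o ∈ Ev D) (hv : v ∈ Ev D)
    {x : Matrix I I ℂ} (hx : ∀ M, Par D M → M * F = F * M → x * M = M * x)
    (hxo : x.mulVec o = o) : x.mulVec v = v := by
  have h1 : Matrix.vecMul (star o) F = star o := by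
    have h2 : F.conjTranspose.mulVec o = o := by
      conv_lhs => rw [← hFo]
      rw [Matrix.mulVec_mulVec, hF, Matrix.one_mulVec]
    have h3 := Matrix.star_mulVec F.conjTranspose o
    rw [h2, Matrix.conjTranspose_conjTranspose] at h3
    exact h3.symm
  have hpar : Par D (Matrix.vecMulVec v (star o)) := by
    intro i j hij
    rw [Matrix.vecMulVec_apply]
    by_cases hi : podd D i
    · rw [hv i (fun e => e hi), zero_mul]
    · have hj : podd D j := by
        by_contra e
        exact hij ⟨fun e' => absurd e' hi, fun e' => absurd e' e⟩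
      rw [Pi.star_apply, ho j (fun e => e hj), star_zero, mul_zero]
  have h2 := hx _ hpar (by rw [Matrix.vecMulVec_mul, Matrix.mul_vecMulVec, h1, hFv])
  have h3 := congrArg (fun M => Matrix.mulVec M o) h2
  rw [← Matrix.mulVec_mulVec, ← Matrix.mulVec_mulVec, hxo, Matrix.vecMulVec_mulVec,
    Matrix.mulVec_smul] at h3
  have h4 : MulOpposite.op (star o ⬝ᵥ o) • x.mulVec v = MulOpposite.op (star o ⬝ᵥ o) • v := h3
  have h5 : star o ⬝ᵥ o ≠ 0 := fun e => ho0 (dotProduct_star_self_eq_zero.1 e)
  funext i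
  have h6 := congrFun h4 i
  rw [Pi.smul_apply, Pi.smul_apply, op_smul_eq_mul, op_smul_eq_mul] at h6
  exact mul_right_cancel₀ h5 h6

theorem psi_inv : (Psi D).transpose * Psi D = 1 := by
  ext i j
  rw [Matrix.mul_apply, Finset.sum_eq_single (D.τ i)]
  · rw [Matrix.transpose_apply, Psi, Matrix.of_apply, Matrix.of_apply, D.τ_τ, if_pos rfl]
    by_cases h : i = j
    · subst h
      rw [if_pos rfl, Matrix.one_apply_eq]
      exact E.E1P.s_sq _
    · rw [if_neg (fun e => h e.symm), mul_zero, Matrix.one_apply_ne h]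
  · intro k _ hk
    rw [Matrix.transpose_apply, Psi, Matrix.of_apply, if_neg, zero_mul]
    intro e
    exact hk (by rw [e, D.τ_τ])
  · intro h
    exact absurd (Finset.mem_univ _) h

/-- a tensor of length two whose matrix commutes with an element of the group is fixed by it -/
theorem fix_of_comm {y : Matrix I I ℂ} (hy : IsG D y) {z : Ten I 2}
    (hz : y * opM D z = opM D z * y) : gT y z = z := by
  obtain ⟨-, h1, h2⟩ := alg1.G_inv D y hy
  have h3 : y.transpose * (Psi D).transpose * y = (Psi D).transpose := by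
    have := congrArg Matrix.transpose hy.2
    rwa [Matrix.transpose_mul, Matrix.transpose_mul, Matrix.transpose_transpose,
      ← Matrix.mul_assoc] at this
  have h4 : (y * E.G4b.mat2 z * y.transpose) * (Psi D).transpose * y
      = E.G4b.mat2 z * (Psi D).transpose * y := by
    calc (y * E.G4b.mat2 z * y.transpose) * (Psi D).transpose * y
        = y * E.G4b.mat2 z * (y.transpose * (Psi D).transpose * y) := by
          simp only [Matrix.mul_assoc]
      _ = y * (E.G4b.mat2 z * (Psi D).transpose) := by rw [h3, Matrix.mul_assoc]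
      _ = E.G4b.mat2 z * (Psi D).transpose * y := by rw [← E.G4b.opM_eq, hz]
  have h5 : (y * E.G4b.mat2 z * y.transpose) * (Psi D).transpose
      = E.G4b.mat2 z * (Psi D).transpose := by
    have h6 := congrArg (fun M => M * y⁻¹) h4
    rwa [Matrix.mul_assoc, h1, Matrix.mul_one, Matrix.mul_assoc _ y, h1, Matrix.mul_one] at h6
  have h6 : y * E.G4b.mat2 z * y.transpose = E.G4b.mat2 z := by
    have h7 := congrArg (fun M => M * Psi D) h5
    rwa [Matrix.mul_assoc, psi_inv, Matrix.mul_one, Matrix.mul_assoc _ _ (Psi D), psi_inv,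
      Matrix.mul_one] at h7
  rw [← E.G4b.mat2_gT] at h6
  funext w
  have h7 := congrFun (congrFun h6 (w 0)) (w 1)
  rw [E.G4b.mat2_apply, E.G4b.mat2_apply] at h7
  have h8 : ![w 0, w 1] = w := by
    funext r
    fin_cases r <;> rfl
  rwa [h8] at h7

theorem fix_span {x : Matrix I I ℂ} {t : Tup I len} {L : ℕ}
    (h : ∀ i, len i = L → gT x (t i) = t i) {z : Ten I L}
    (hz : z ∈ Submodule.span ℂ {v : Ten I L | ∃ i, ∃ h : len i = L, v = h ▸ t i}) :
    gT x z = z := by
  induction hz using Submodule.span_induction with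
  | mem v hv =>
    obtain ⟨i, e, rfl⟩ := hv
    have h1 := h i e
    clear h
    subst e
    exact h1
  | zero =>
    have := alg1.gT_smul x 0 (0 : Ten I L)
    rwa [zero_smul, zero_smul] at this
  | add u v _ _ hu hv => rw [alg1.gT_add, hu, hv]
  | smul c u _ hu => rw [alg1.gT_smul, hu]

end T1

open T1 TMIN E.E1P in
/-- **Row T1.** -/
theorem t1 : T1Statement := by
  intro I Λ _ _ _ D At Bt F Γ β _ lb b P m₀
  classical
  have S := P.sys
  obtain ⟨o, ho0, hoAt, hofix⟩ := P.one
  have hvol : VolStatement := vol alg1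
  have hpha : PhaStatement := pha alg1 tan
  have havg : AvgStatement := avg fft alg1 alg2
  have hl2 : L2Statement := l2 alg1 hvol hpha havg
  have hclo : CloStatement := clo alg1 alg2 hvol hpha havg
  have hl1 : L1bStatement := l1b alg1 (volb alg1) (phab alg1 (tanb alg1))
    (avgb (ffb alg1 cpt hl2) alg1 alg2)
  -- members of length one and two
  have hF1 : ∀ v, At 1 (tv v) → F.mulVec v = v ∧ v ∈ Ev D := by
    intro v hv
    refine ⟨tv_inj ?_, ev_of (S.even 1 _ hv)⟩
    rw [← gT_tv]
    exact P.fix 1 _ hv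
  have hb1 : ∀ x, IsG D x → gS x b = b → ∀ v, At 1 (tv v) → x.mulVec v = v := by
    intro x hx hxb v hv
    exact comm_one P.cpt.2 ho0 (hF1 o hoAt).1 (hF1 v hv).1 (hF1 o hoAt).2 (hF1 v hv).2
      (P.comm x hx hxb) (hofix x hx hxb)
  have hb2 : ∀ x, IsG D x → gS x b = b → ∀ z, At 2 z → gT x z = z := by
    intro x hx hxb z hz
    exact fix_of_comm hx (P.comm x hx hxb _ (par_two (S.even 2 z hz))
      (E.G4b.comm_fix P.cpt.1 (P.fix 2 z hz)))
  obtain ⟨m, hm⟩ : ∃ m, m = m₀ + 2 := ⟨_, rfl⟩
  -- finite sets that span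
  have hB : ∀ L : ℕ, ∃ B : Set (Ten I L), B.Finite ∧ (∀ x ∈ B, At L x) ∧
      ∀ u, At L u → u ∈ Submodule.span ℂ B := by
    intro L
    obtain ⟨B, hB1, hB2, hB3⟩ := exists_linearIndependent ℂ {u : Ten I L | At L u}
    exact ⟨B, hB3.setFinite, fun x hx => hB1 hx, fun u hu => by
      rw [hB2]; exact Submodule.subset_span hu⟩
  choose B hBf hBA hBs using hB
  have : ∀ L, Fintype (B L) := fun L => (hBf L).fintype
  let ι : Type := Option (Σ L : Fin (m + 1), B L)
  let len : ι → ℕ := fun i => i.elim 0 (fun x => x.1)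
  let t : Tup I len := fun i => match i with
    | none => fun _ => 1
    | some x => x.2.1
  have htAt : ∀ i, At (len i) (t i) := by
    intro i
    match i with
    | none => exact S.one
    | some x => exact hBA _ _ x.2.2
  have hlen : ∀ i, len i ≤ m := by
    intro i
    match i with
    | none => exact Nat.zero_le _
    | some x => exact Nat.lt_succ_iff.1 x.1.2
  -- the minimal point for the stabiliser of `b`
  obtain ⟨s, g, hg, hlim, hmin⟩ := minb alg1 D b t
  have hgG : ∀ j, IsG D (g j) := fun j => (hg j).1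
  have hFp : Par D F := par_of_typ P.cpt.1.1
  have hcomm : ∀ j, g j * F = F * g j := fun j => P.comm _ (hg j).1 (hg j).2 F hFp rfl
  have hfix : gS F s = s := by
    funext i
    have h1 : Tendsto (fun j => gT (g j) (t i)) atTop (𝓝 (s i)) := (tendsto_pi_nhds.mp hlim) i
    have h2 : Tendsto (fun j => gT F (gT (g j) (t i))) atTop (𝓝 (gT F (s i))) := by
      have h3 : Continuous fun u : Ten I (len i) => gT F u :=
        alg1.gT_cont.comp (continuous_const.prodMk continuous_id)
      exact (h3.tendsto _).comp h1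
    have h4 : (fun j => gT F (gT (g j) (t i))) = fun j => gT (g j) (t i) := by
      funext j
      rw [← alg1.gT_mul, ← hcomm j, alg1.gT_mul, P.fix _ _ (htAt i)]
    rw [h4] at h2
    exact tendsto_nhds_unique h2 h1
  have hs : hS s s ≠ 0 := XY.hS_ne alg1 (none : ι) rfl (fun _ => rfl) g hlim
  -- the element of the compact group
  have hlim1 : Tendsto (fun j => gS (g j) (cmb b t)) atTop (𝓝 (cmb b s)) := by
    have h1 : (fun j => gS (g j) (cmb b t)) = fun j => cmb b (gS (g j) t) := by
      funext j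
      rw [(algB alg1 alg2).gS_cmb, (hg j).2]
    rw [h1]
    exact (((algB alg1 alg2).cmb_cont (len := len) b).tendsto s).comp hlim
  have hcB : ∀ i, Bt (Sum.elim lb len i) (cmb b t i) := by
    intro i
    match i with
    | .inl i => exact P.bmem i
    | .inr i => exact P.sub _ _ (htAt i)
  have hinv : ∀ (l' : List (β ⊕ ι))
      (m' : Ten I ((l'.map (Sum.elim lb len)).sum + 0)), IsMatch D _ m' →
      dm D 0 l' m' (cmb b (jS D s)) = dm D 0 l' m' (cmb b s) := by
    intro l' m' hm'
    have h0 : cmb b (jS D s) = jS D (cmb b s) := by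
      rw [(algB alg1 alg2).jS_cmb, P.base.1]
    rw [h0, alg2.dm_jS D 0 l' m' _ hm']
    have h2 : dm D 0 l' m' (cmb b s) = dm D 0 l' m' (cmb b t) := by
      have h3 := dm_lim hgG hlim1 0 l' m' hm'
      have h4 : (fun j => gT (g j) (dm D 0 l' m' (cmb b t))) =
          fun _ => dm D 0 l' m' (cmb b t) := by
        funext j
        exact XY.gT_zero_len rfl _ _
      rw [h4] at h3
      exact tendsto_nhds_unique h3 tendsto_const_nhds
    rw [h2]
    obtain ⟨q, hq⟩ := P.rsys.real _ (dm_mem P.rsys hcB 0 l' hm')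
    funext w
    rw [jT, hq, hq, sg]
    simp
  obtain ⟨H'⟩ := cptbH D b
  obtain ⟨κ, hκ⟩ := hl1 P.base H' s (jS D s) hmin hs (RealT.hS_jS alg1 D _) hinv
  have hkK : IsKb D b (H'.mat κ) := H'.mem κ
  have hkc := P.comm _ hkK.1.1 hkK.2
  have hmin' : Minimal D s := mat_min alg1 P.cpt hfix hkK.1 hkc hκ
  obtain ⟨H⟩ := cpt D
  have hsM : ∀ i, s i ∈ MT D s (len i) := fun i =>
    hl2 H s hmin' hs _ _ fun x hx => congrFun hx i
  -- the orbit is closed
  have hMA : ∀ {c : ℕ} {u : Ten I c}, u ∈ MT D t c → u ∈ Submodule.span ℂ {u | At c u} := by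
    intro c u hu
    refine Submodule.span_mono ?_ hu
    rintro v ⟨l', m', hm', rfl⟩
    exact Qps.dm_mem S htAt c l' hm'
  have hnd : ∀ i, NdAt D t (len i) := by
    intro i u hu hu0
    obtain ⟨w, hw, hw0⟩ := P.nd _ u (hMA hu) hu0
    -- a member of the tuple
    have h1 : ∃ x ∈ B (len i), psiT D u x ≠ 0 := by
      by_contra hcon
      push Not at hcon
      have h2 : w ∈ Submodule.span ℂ (B (len i)) :=
        (Submodule.span_le.2 fun x hx => hBs _ x hx) hw
      have h3 : Submodule.span ℂ (B (len i)) ≤ LinearMap.ker (Qps.psiL D (len i) u) :=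
        Submodule.span_le.2 fun x hx => hcon x hx
      exact hw0 (h3 h2)
    obtain ⟨x, hxB, hx0⟩ := h1
    let i' : ι := some ⟨⟨len i, Nat.lt_succ_of_le (hlen i)⟩, ⟨x, hxB⟩⟩
    obtain ⟨u', hu'⟩ := MT_lim hgG hlim hu
    obtain ⟨v, hvM, hv⟩ := MT_of_lim hgG hlim (hsM i')
    refine ⟨v, hvM, ?_⟩
    have h3 : Tendsto (fun j => gT (g j) x) atTop (𝓝 (s i')) := (tendsto_pi_nhds.mp hlim) i'
    have h4 := ZAbs.psi_lim alg1 hgG hu' h3
    have h5 := ZAbs.psi_lim alg1 hgG hu' hv
    rw [← h5, h4]
    exact hx0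
  obtain ⟨x, hx, hxs⟩ := hclo H t s hnd hs hmin' g hgG hlim
  -- the span
  have hspan : ∀ L, L ≤ m → ∀ u, At L u →
      u ∈ Submodule.span ℂ {v : Ten I L | ∃ i, ∃ h : len i = L, v = h ▸ t i} := by
    intro L hL u hu
    refine Submodule.span_mono ?_ (hBs L u hu)
    intro y hy
    exact ⟨some ⟨⟨L, Nat.lt_succ_of_le hL⟩, ⟨y, hy⟩⟩, rfl, rfl⟩
  -- tensors fixed by the stabiliser of `b`
  have hst : ∀ i, (∀ j, gT (g j) (t i) = t i) → gT x (t i) = t i := by
    intro i hi
    have h1 : Tendsto (fun j => gT (g j) (t i)) atTop (𝓝 (s i)) := (tendsto_pi_nhds.mp hlim) i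
    have h2 : (fun j => gT (g j) (t i)) = fun _ => t i := by
      funext j
      exact hi j
    rw [h2] at h1
    have h3 : s i = t i := tendsto_nhds_unique h1 tendsto_const_nhds
    have h4 : gT x (s i) = t i := congrFun hxs i
    rwa [h3] at h4
  have hxz : ∀ L, L ≤ m → (∀ j, ∀ u, At L u → gT (g j) u = u) → ∀ z, At L z → gT x z = z := by
    intro L hL h z hz
    refine fix_span (t := t) (fun i hi => hst i fun j => ?_) (hspan L hL z hz)
    have h1 := htAt i
    clear_value t
    subst hi
    exact h j _ h1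
  have hx1 : ∀ v, At 1 (tv v) → x.mulVec v = v := by
    intro v hv
    have h1 : gT x (tv v) = tv v := by
      refine hxz 1 (by omega) (fun j u hu => ?_) _ hv
      have h2 : u = tv (fun i => u ![i]) := by
        funext w
        unfold tv
        congr 1
        funext r
        fin_cases r
        rfl
      rw [h2, gT_tv, hb1 _ (hg j).1 (hg j).2 _ (by rw [← h2]; exact hu)]
    rw [gT_tv] at h1
    exact tv_inj h1
  have hx2 : ∀ z, At 2 z → gT x z = z := fun z hz =>
    hxz 2 (by omega) (fun j u hu => hb2 _ (hg j).1 (hg j).2 u hu) z hz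
  exact ⟨ι, inferInstance, len, t, s, x, H'.mat κ,
    { mem := htAt
      span := fun L hL => hspan L (by omega)
      grp := hx
      eq := hxs
      min := hmin'
      fix := hfix
      cpt := hkK.1
      key := hκ
      com := hkc
      one := fun v hv => ⟨hb1 _ hkK.1.1 hkK.2 v hv, hx1 v hv⟩
      two := hx2 }⟩

end Pool.Agent.Lib.MP_361a6f_ag.FL.LT
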