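import Pool.Agent.Lib.MP_361a6f_ag.FL.E.DefsH

/-!
# Level two of a reduction (Theorem LT), all letters at once: the data and the rows

As in `FL/E/DefsH.lean`, but the letters may be even or odd and there may be several letters; so
the matrix `F` of Frobenius is an element of the compact group that need not be diagonal in the
adapted basis. `Par D M`: the matrix `M` preserves the parity of the letters.
-/

open Filter Topology MeasureTheory

namespace Pool.Agent.Lib.MP_361a6f_ag.FL.LT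

open Pool.Agent.Lib.MP_361a6f_ag.FL.E (RSys opM StabU stab)

section defs

variable {I : Type}

/-- the matrix `M` preserves the parity `par` -/
def ParP (par : I → Prop) (M : Matrix I I ℂ) : Prop :=
  ∀ i j, ¬ (par i ↔ par j) → M i j = 0

/-- the vectors supported on the letters with `par` -/
def Sup (par : I → Prop) : Submodule ℂ (I → ℂ) where
  carrier := {v | ∀ i, ¬ par i → v i = 0}
  add_mem' := by
    intro a b ha hb i hi
    rw [Pi.add_apply, ha i hi, hb i hi, add_zero]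
  zero_mem' := by
    intro i _
    rfl
  smul_mem' := by
    intro c a ha i hi
    rw [Pi.smul_apply, ha i hi, smul_zero]

/-- a vector as a tensor of length one -/
def tv (v : I → ℂ) : Ten I 1 := fun w => v (w 0)

variable {Λ : Type}

/-- the parity of a letter -/
def podd (D : Dat I Λ) (i : I) : Prop := D.odd (D.typ i)

/-- `M` preserves the parity of the letters -/
abbrev Par (D : Dat I Λ) (M : Matrix I I ℂ) : Prop := ParP (podd D) M

/-- the vectors supported on the even letters -/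
abbrev Ev (D : Dat I Λ) : Submodule ℂ (I → ℂ) := Sup fun i => ¬ podd D i

/-- the vectors supported on the odd letters -/
abbrev Od (D : Dat I Λ) : Submodule ℂ (I → ℂ) := Sup (podd D)

/-- there are no `N + 1` independent nonzero stable subspaces of `V` without nonzero members of the
system of length one -/
def Few [Fintype I] [DecidableEq I] (D : Dat I Λ) (At : (L : ℕ) → Ten I L → Prop)
    (Γ : Set (Matrix I I ℂ)) (V : Submodule ℂ (I → ℂ)) (N : ℕ) : Prop :=
  ∀ U : Fin (N + 1) → Submodule ℂ (I → ℂ), (∀ i, StabU D At Γ (U i)) → (∀ i, U i ≠ ⊥) →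
    (∀ i, U i ≤ V) → (∀ i, ∀ v ∈ U i, At 1 (tv v) → v = 0) → iSupIndep U → False

/-- there are no `N + 1` independent nonzero `(S, E)`-stable subspaces of `V` without nonzero
vectors of `Al` -/
def FewS [Fintype I] (S : Submodule ℂ (Matrix I I ℂ)) (E : Set (Matrix I I ℂ)) (Al : Set (I → ℂ))
    (V : Submodule ℂ (I → ℂ)) (N : ℕ) : Prop :=
  ∀ U : Fin (N + 1) → Submodule ℂ (I → ℂ),
    (∀ i, (∀ A ∈ S, ∀ v ∈ U i, A.mulVec v ∈ U i) ∧ ∀ e ∈ E, ∀ v ∈ U i, e.mulVec v ∈ U i) →
    (∀ i, U i ≠ ⊥) → (∀ i, U i ≤ V) → (∀ i, ∀ v ∈ U i, v ∈ Al → v = 0) → iSupIndep U → False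

end defs

/-- the part of the data that concerns the system `At` and the group `Γ` -/
structure GalS {I Λ : Type} [Fintype I] [DecidableEq I] [DecidableEq Λ] (D : Dat I Λ)
    (At : (L : ℕ) → Ten I L → Prop) (F : Matrix I I ℂ) (Γ : Set (Matrix I I ℂ)) : Prop where
  sys : ASys D At
  ratio : ∀ (a c : ℂ) (x y : I → ℂ), x ≠ 0 → y ≠ 0 → F.mulVec x = a • x → F.mulVec y = c • y →
    ∀ n : ℕ, 0 < n → a ^ n = c ^ n → a = c
  fix : ∀ L u, At L u → gT F u = u
  grp : ∀ x ∈ Γ, IsG D x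
  gfix : ∀ x ∈ Γ, ∀ L u, At L u → gT x u = u
  h1 : ∀ U : Submodule ℂ (I → ℂ), StabU D At Γ U → (U ≤ Ev D ∨ U ≤ Od D) →
    (∀ v ∈ U, ∀ w ∈ U, dotProduct v ((Psi D).mulVec w) = 0) → U = ⊥
  few : (Few D At Γ (Ev D) 2 ∧ Few D At Γ (Od D) 1) ∨ (Few D At Γ (Ev D) 0 ∧ Few D At Γ (Od D) 3)
  nd : ∀ L, ∀ u ∈ Submodule.span ℂ {u | At L u}, u ≠ 0 →
    ∃ v ∈ Submodule.span ℂ {u | At L u}, psiT D u v ≠ 0

/-- the data, after the choice of an adapted basis in which `J₀` fixes the base tuple `b` -/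
structure TSys {I Λ : Type} [Fintype I] [DecidableEq I] [DecidableEq Λ] (D : Dat I Λ)
    (At Bt : (L : ℕ) → Ten I L → Prop) (F : Matrix I I ℂ) (Γ : Set (Matrix I I ℂ)) {β : Type}
    [Fintype β] (lb : β → ℕ) (b : Tup I lb) : Prop extends GalS D At F Γ where
  cpt : IsK D F
  rsys : RSys D Bt
  sub : ∀ L u, At L u → Bt L u
  bmem : ∀ i, Bt (lb i) (b i)
  base : IsBase D b
  comm : ∀ x, IsG D x → gS x b = b → ∀ M, Par D M → M * F = F * M → x * M = M * x
  one : ∃ o : I → ℂ, o ≠ 0 ∧ At 1 (tv o) ∧ ∀ x, IsG D x → gS x b = b → x.mulVec o = o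

/-- THEOREM LT in coordinates: `ψ` is positive definite on the real span of the system. -/
def ThmTStatement : Prop :=
  ∀ {I Λ : Type} [Fintype I] [DecidableEq I] [DecidableEq Λ] (D : Dat I Λ)
    (At Bt : (L : ℕ) → Ten I L → Prop) (F : Matrix I I ℂ) (Γ : Set (Matrix I I ℂ))
    {β : Type} [Fintype β] (lb : β → ℕ) (b : Tup I lb),
    TSys D At Bt F Γ lb b → ∀ (L : ℕ) (u : Ten I L), u ∈ Submodule.span ℝ {u | At L u} → u ≠ 0 →
      ∃ r : ℝ, 0 < r ∧ psiT D u u = (r : ℂ)

/-- the situation at level `m` -/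
structure LvlT {I Λ : Type} [Fintype I] [DecidableEq I] [DecidableEq Λ] (D : Dat I Λ)
    (At : (L : ℕ) → Ten I L → Prop) (F : Matrix I I ℂ) (m : ℕ)
    {ι : Type} [Fintype ι] (len : ι → ℕ) (t s : Tup I len) (x k : Matrix I I ℂ) : Prop where
  mem : ∀ i, At (len i) (t i)
  span : ∀ L, L ≤ m → ∀ u, At L u →
    u ∈ Submodule.span ℂ {v : Ten I L | ∃ i, ∃ h : len i = L, v = h ▸ t i}
  grp : IsG D x
  eq : gS x s = t
  min : Minimal D s
  fix : gS F s = s
  cpt : IsK D k
  key : gS k s = jS D s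
  com : ∀ M, Par D M → M * F = F * M → k * M = M * k
  one : ∀ v, At 1 (tv v) → k.mulVec v = v ∧ x.mulVec v = v
  two : ∀ z, At 2 z → gT x z = z

/-- Row T1: the situation at every level exists (as `E/P1.lean`, `E/MinG.lean`). -/
def T1Statement : Prop :=
  ∀ {I Λ : Type} [Fintype I] [DecidableEq I] [DecidableEq Λ] (D : Dat I Λ)
    (At Bt : (L : ℕ) → Ten I L → Prop) (F : Matrix I I ℂ) (Γ : Set (Matrix I I ℂ))
    {β : Type} [Fintype β] (lb : β → ℕ) (b : Tup I lb),
    TSys D At Bt F Γ lb b → ∀ m : ℕ, ∃ (ι : Type) (_ : Fintype ι) (len : ι → ℕ) (t s : Tup I len)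
      (x k : Matrix I I ℂ), LvlT D At F m len t s x k

/-- Row T2: `k` normalises the Lie algebra of the stabiliser (as `E/E2.lean`). -/
def T2Statement : Prop :=
  ∀ {I Λ ι : Type} [Fintype I] [DecidableEq I] [DecidableEq Λ] [Fintype ι] {len : ι → ℕ}
    (D : Dat I Λ) (s : Tup I len) (k : Matrix I I ℂ), Minimal D s → IsK D k →
    gS k s = jS D s → ∀ A ∈ stab D s, k * A * k.conjTranspose ∈ stab D s

/-- Row T3: a hermitian element of the Lie algebra of the stabiliser with the same commutant as `F`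
(as `E/P3.lean`, after diagonalising `F`). -/
def T3Statement : Prop :=
  ∀ {I Λ ι : Type} [Fintype I] [DecidableEq I] [DecidableEq Λ] [Fintype ι] {len : ι → ℕ}
    (D : Dat I Λ) (s : Tup I len) (F : Matrix I I ℂ), IsK D F →
    (∀ (a c : ℂ) (x y : I → ℂ), x ≠ 0 → y ≠ 0 → F.mulVec x = a • x → F.mulVec y = c • y →
      ∀ n : ℕ, 0 < n → a ^ n = c ^ n → a = c) →
    gS F s = s →
    ∃ A ∈ stab D s, A.conjTranspose = A ∧ ∀ M : Matrix I I ℂ, M * A = A * M → M * F = F * M

/-- Row T4: members of the system of length one and two and the level data. -/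
def T4Statement : Prop :=
  ∀ {I Λ : Type} [Fintype I] [DecidableEq I] [DecidableEq Λ] (D : Dat I Λ)
    (At Bt : (L : ℕ) → Ten I L → Prop) (F : Matrix I I ℂ) (Γ : Set (Matrix I I ℂ))
    {β : Type} [Fintype β] (lb : β → ℕ) (b : Tup I lb),
    TSys D At Bt F Γ lb b → ∀ (m : ℕ), 2 ≤ m → ∀ {ι : Type} [Fintype ι] (len : ι → ℕ)
      (t s : Tup I len) (x k : Matrix I I ℂ), LvlT D At F m len t s x k →
    (∀ z, At 2 z → (∀ A ∈ stab D s, opM D z * A = A * opM D z) ∧ opM D z * k = k * opM D z ∧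
      opM D z * x = x * opM D z ∧ Par D (opM D z)) ∧
    (∀ v, At 1 (tv v) → (∀ A ∈ stab D s, A.mulVec v = 0) ∧ v ∈ Ev D)

/-- Row T5 (no `D`): the Lie algebra `S`, closed under `*`, preserves the invertible form `P` and
the parity; `E` commutes with `S`; `A0` is a hermitian element of `S`; the unitary `k` commutes
with all parity preserving matrices that commute with `A0`, and with `E`, preserves `P` and
normalises `S`. The vectors of `Al` (algebraic classes) are killed by `S`; `o` is a nonzero even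
vector killed by `S` and fixed by `k`. There is no nonzero isotropic stable subspace of one parity,
and there are few stable subspaces without vectors of `Al`. Then `k` fixes the tensors killed by `S`
that are supported on words with an even number of odd letters. (Classes: `i ~ j` if they have the
same parity and `T i - T j` is in the lattice; all letters with `T i = 0` are in the class of a
letter of `o`; SHARE inside one parity; leftover letters: none, one even letter, or two letters of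
the same parity.) -/
def T5Statement : Prop :=
  ∀ {I : Type} [Fintype I] [DecidableEq I] (S : Submodule ℂ (Matrix I I ℂ))
    (E : Set (Matrix I I ℂ)) (P : Matrix I I ℂ) (par : I → Prop),
    (∀ x ∈ S, ∀ y ∈ S, x * y - y * x ∈ S) → (∀ x ∈ S, x.conjTranspose ∈ S) →
    (∀ e ∈ E, ∀ A ∈ S, e * A = A * e) → (∀ A ∈ S, A.transpose * P + P * A = 0) → IsUnit P →
    (∀ A ∈ S, ParP par A) → (∀ e ∈ E, ParP par e) → ParP par P →
    ∀ A0 ∈ S, A0.conjTranspose = A0 →
    ∀ k : Matrix I I ℂ, k.conjTranspose * k = 1 →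
    (∀ M, ParP par M → M * A0 = A0 * M → k * M = M * k) →
    (∀ e ∈ E, e * k = k * e) → k.transpose * P * k = P →
    (∀ A ∈ S, k * A * k.conjTranspose ∈ S) →
    ∀ (Al : Set (I → ℂ)) (o : I → ℂ), (∀ v ∈ Al, ∀ A ∈ S, A.mulVec v = 0) →
    (∀ v ∈ Al, v ∈ Sup fun i => ¬ par i) → o ≠ 0 →
    o ∈ Sup (fun i => ¬ par i) → (∀ A ∈ S, A.mulVec o = 0) → k.mulVec o = o →
    (∀ U : Submodule ℂ (I → ℂ), (∀ A ∈ S, ∀ v ∈ U, A.mulVec v ∈ U) →
      (∀ e ∈ E, ∀ v ∈ U, e.mulVec v ∈ U) → (U ≤ Sup (fun i => ¬ par i) ∨ U ≤ Sup par) →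
      (∀ v ∈ U, ∀ w ∈ U, dotProduct v (P.mulVec w) = 0) → U = ⊥) →
    ((FewS S E Al (Sup fun i => ¬ par i) 2 ∧ FewS S E Al (Sup par) 1) ∨
      (FewS S E Al (Sup fun i => ¬ par i) 0 ∧ FewS S E Al (Sup par) 3)) →
    ∀ (L : ℕ) (u : Ten I L),
      (∀ w, u w ≠ 0 → Even (Nat.card {i : Fin L // par (w i)})) →
      (∀ A ∈ S, aT A u = 0) → gT k u = u

/-- Row T6: the assembly. -/
def T6Statement : Prop :=
  T1Statement → E.P2Statement → T2Statement → T3Statement → E.G4Statement → T4Statement →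
    T5Statement → ThmTStatement

/-- the data before the choice of the real structure: `Ct` is the system of the reduction, positive
in the lengths `≤ 2` -/
structure QT {I Λ : Type} [Fintype I] [DecidableEq I] [DecidableEq Λ] (D : Dat I Λ)
    (At Ct : (L : ℕ) → Ten I L → Prop) (F : Matrix I I ℂ) (Γ : Set (Matrix I I ℂ)) :
    Prop extends GalS D At F Γ where
  csys : ASys D Ct
  sub : ∀ L u, At L u → Ct L u
  pos : ∀ L, L ≤ 2 → ∀ u, Ct L u → u ≠ 0 → ∃ q : ℚ, 0 < q ∧ psiT D u u = (q : ℂ)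
  grpF : IsG D F
  ften : ∃ f ∈ Submodule.span ℝ {u : Ten I 2 | Ct 2 u}, opM D f = F
  comm : ∀ x, IsG D x → (∀ u, Ct 1 u → gT x u = u) → (∀ u, Ct 2 u → gT x u = u) →
    ∀ M, Par D M → M * F = F * M → x * M = M * x
  one : ∃ o : I → ℂ, o ≠ 0 ∧ At 1 (tv o)

/-- THEOREM LT in coordinates, final form. -/
def ThmQTStatement : Prop :=
  ∀ {I Λ : Type} [Fintype I] [DecidableEq I] [DecidableEq Λ] (D : Dat I Λ)
    (At Ct : (L : ℕ) → Ten I L → Prop) (F : Matrix I I ℂ) (Γ : Set (Matrix I I ℂ)),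
    QT D At Ct F Γ → ∀ (L : ℕ) (u : Ten I L), u ∈ Submodule.span ℝ {u | At L u} → u ≠ 0 →
      ∃ r : ℝ, 0 < r ∧ psiT D u u = (r : ℂ)

/-- Row T7: the choice of the real structure (`Qps.qps`, transport; as `E/Rea.lean`,
`E/MatP.lean`). -/
def T7Statement : Prop := ThmTStatement → ThmQTStatement

/-- Row TN: `num = hom` from the absence of isotropic stable subspaces (as `E/Nd.lean`, for all
letters). -/
def TNStatement : Prop :=
  ∀ {I Λ : Type} [Fintype I] [DecidableEq I] [DecidableEq Λ] (D : Dat I Λ)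
    (At : (L : ℕ) → Ten I L → Prop) (Γ : Set (Matrix I I ℂ)), ASys D At →
    (∀ x ∈ Γ, IsG D x) → (∀ x ∈ Γ, ∀ L u, At L u → gT x u = u) →
    (∀ U : Submodule ℂ (I → ℂ), StabU D At Γ U → (U ≤ Ev D ∨ U ≤ Od D) →
      (∀ v ∈ U, ∀ w ∈ U, dotProduct v ((Psi D).mulVec w) = 0) → U = ⊥) →
    ∀ L, ∀ u ∈ Submodule.span ℂ {u | At L u}, u ≠ 0 →
      ∃ v ∈ Submodule.span ℂ {u | At L u}, psiT D u v ≠ 0

end Pool.Agent.Lib.MP_361a6f_ag.FL.LT
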